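import Mathlib

set_option autoImplicit false
universe u

namespace Pool.Agent.H.MP_1df3f9_co

@[ext] structure P : Type u where
  n : ℕ
  i : ℕ
  t : ℕ
  h : i < t

def le (x y : P.{u}) : Prop :=
  (x.n = y.n ∧ ((x.i = y.i ∧ x.t ≤ y.t) ∨ x.t < y.i)) ∨
    (x.n = y.n + 1 ∧ (x.i < y.i ∨ x.t ≤ 2 * y.t)) ∨ y.n + 2 ≤ x.n

instance : PartialOrder P.{u} where
  le := le
  le_refl x := Or.inl ⟨rfl, Or.inl ⟨rfl, le_rfl⟩⟩
  le_trans x y z h1 h2 := by
    have := x.h; have := y.h; have := z.h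
    unfold le at *
    omega
  le_antisymm x y h1 h2 := by
    have := x.h; have := y.h
    unfold le at *
    ext <;> omega

lemma le_def (x y : P.{u}) : x ≤ y ↔ le x y := Iff.rfl

def cmp (x y : P.{u}) : Prop := le x y ∨ le y x

lemma chain_iff {C : Set P.{u}} : IsChain (· ≤ ·) C ↔ ∀ x ∈ C, ∀ y ∈ C, cmp x y := by
  constructor
  · intro h x hx y hy
    exact h.total hx hy
  · intro h x hx y hy _
    exact h x hx y hy

lemma fac (A : Set P.{u}) (hA : IsAntichain (· ≤ ·) A) : A.Finite := by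
  have h : ∀ x ∈ A, ∀ y ∈ A, le x y → x = y := fun x hx y hy e => hA.eq hx hy e
  rcases A.eq_empty_or_nonempty with rfl | ⟨a, ha⟩
  · exact Set.finite_empty
  have h1 : ∀ m, ∃ B, ∀ p ∈ A, p.n = m → p.i ≤ B := by
    intro m
    by_cases hm : ∃ q ∈ A, q.n = m
    · obtain ⟨q, hq, e⟩ := hm
      refine ⟨q.t, fun p hp e' => by_contra fun hh => ?_⟩
      have := h q hq p hp (Or.inl ⟨by omega, Or.inr (by omega)⟩)
      subst this
      have := q.h
      omega
    · exact ⟨0, fun p hp e => absurd ⟨p, hp, e⟩ hm⟩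
  choose B hB using h1
  refine Set.Finite.of_finite_image (f := fun p => (p.n, p.i)) ?_ ?_
  · refine ((Set.finite_Iic (a.n + 1)).biUnion
      (fun m _ => (Set.finite_singleton m).prod (Set.finite_Iic (B m)))).subset ?_
    rintro _ ⟨p, hp, rfl⟩
    refine Set.mem_biUnion (x := p.n) ?_ ⟨rfl, hB _ p hp rfl⟩
    by_contra hh
    have := h p hp a ha (Or.inr (Or.inr (by simp at hh; omega)))
    subst this
    simp at hh
  · intro p hp q hq e
    simp only [Prod.mk.injEq] at e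
    rcases le_total p.t q.t with k | k
    · exact h p hp q hq (Or.inl ⟨e.1, Or.inl ⟨e.2, k⟩⟩)
    · exact (h q hq p hp (Or.inl ⟨e.1.symm, Or.inl ⟨e.2.symm, k⟩⟩)).symm

def SM (C : Set P.{u}) : Prop :=
  ∀ D : Set P.{u}, IsChain (· ≤ ·) D → Cardinal.mk ↥(D \ C) ≤ Cardinal.mk ↥(C \ D)

lemma key {C : Set P.{u}} (hC : SM C) (D : Set P.{u}) (hD : ∀ x ∈ D, ∀ y ∈ D, cmp x y)
    (s t : Finset ℕ) (f : s → P.{u}) (g : P.{u} → ℕ) (hf : ∀ x, f x ∈ D \ C)
    (fi : Function.Injective f) (hg : ∀ p ∈ C \ D, g p ∈ t) (gi : Set.InjOn g (C \ D)) :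
    s.card ≤ t.card := by
  obtain ⟨e⟩ := (Cardinal.le_def _ _).1 (hC D (chain_iff.2 hD))
  rw [← Fintype.card_coe s, ← Fintype.card_coe t]
  refine Fintype.card_le_of_injective (fun x => ⟨g (e ⟨f x, hf x⟩), hg _ (e _).2⟩) ?_
  intro x y h
  have h1 := gi (e _).2 (e _).2 (congrArg Subtype.val h)
  exact fi (congrArg Subtype.val (e.injective (Subtype.ext h1)))

lemma three {C : Set P.{u}} (hc : ∀ x ∈ C, ∀ y ∈ C, cmp x y) (hC : SM C) {a b c : P.{u}}
    (ha : a ∈ C) (hb : b ∈ C) (hc' : c ∈ C) (e1 : a.n = b.n) (e2 : b.n = c.n) (l1 : a.i < b.i)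
    (l2 : b.i < c.i) : False := by
  classical
  let s : Finset ℕ :=
    (Finset.Ico a.t c.i).filter (fun x => ∀ p ∈ C, p.n = a.n → p.i = a.i → p.t ≠ x)
  have hs : ∀ x, x ∈ s ↔ (a.t ≤ x ∧ x < c.i) ∧ ∀ p ∈ C, p.n = a.n → p.i = a.i → p.t ≠ x := by
    intro x; simp only [s, Finset.mem_filter, Finset.mem_Ico]
  have hab := hc a ha b hb
  have hb' : b.i ∈ s := (hs _).2 ⟨⟨by have := b.h; unfold cmp le at *; omega, l2⟩,
    fun p hp k1 k2 k3 => by
      have := hc p hp b hb; have := b.h; unfold cmp le at *; omega⟩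
  have hac := hc a ha c hc'
  have := key hC {p | (p ∈ C ∧ ¬ (p.n = a.n ∧ a.i < p.i ∧ p.i < c.i)) ∨
      (p.n = a.n ∧ p.i = a.i ∧ a.t ≤ p.t ∧ p.t < c.i)} ?_ s (s.erase b.i)
    (fun x => ⟨a.n, a.i, x.1, lt_of_lt_of_le a.h ((hs _).1 x.2).1.1⟩) (fun p => p.t) ?_ ?_ ?_ ?_
  · rw [Finset.card_erase_of_mem hb'] at this
    have := Finset.card_pos.2 ⟨_, hb'⟩
    omega
  · have aux : ∀ x ∈ C, ¬ (x.n = a.n ∧ a.i < x.i ∧ x.i < c.i) → ∀ y : P.{u},
        y.n = a.n ∧ y.i = a.i ∧ a.t ≤ y.t ∧ y.t < c.i → cmp x y := by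
      intro x hx k y hy
      have := hc x hx a ha; have := hc x hx c hc'
      have := x.h; have := y.h; have := a.h; have := c.h
      clear hab hac
      unfold cmp le at *
      omega
    rintro x (⟨hx, k⟩ | hx) y (⟨hy, l⟩ | hy)
    · exact hc x hx y hy
    · exact aux x hx k y hy
    · exact (aux y hy l x hx).symm
    · clear hab hac
      unfold cmp le
      omega
  · intro x
    obtain ⟨k1, k2⟩ := (hs _).1 x.2
    exact ⟨Or.inr ⟨rfl, rfl, k1⟩, fun h => k2 _ h rfl rfl rfl⟩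
  · intro x y h
    exact Subtype.ext (congrArg P.t h)
  · rintro p ⟨hp, hp'⟩
    simp only [Set.mem_setOf_eq, not_or, not_and, not_not, hp, true_imp_iff] at hp'
    have := hc p hp b hb; have := hc p hp c hc'; have := hc p hp a ha
    have := p.h; have := b.h; have := c.h; have := a.h
    clear hab hac
    refine Finset.mem_erase.2 ⟨?_, (hs _).2 ⟨?_, fun q hq k1 k2 k3 => ?_⟩⟩
    · unfold cmp le at *; omega
    · unfold cmp le at *; omega
    · have := hc p hp q hq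
      unfold cmp le at *; omega
  · rintro p ⟨hp, hp'⟩ q ⟨hq, hq'⟩ e
    simp only [Set.mem_setOf_eq, not_or, not_and, not_not, hp, hq, true_imp_iff] at hp' hq' e
    have := hc p hp q hq
    have := p.h; have := q.h
    clear hab hac
    unfold cmp le at *
    ext <;> omega

/-- columns of one level are bounded -/
lemma cols {C : Set P.{u}} (hc : ∀ x ∈ C, ∀ y ∈ C, cmp x y) (hC : SM C) (n : ℕ) :
    ∃ K, ∀ p ∈ C, p.n = n → p.i < K := by
  by_contra h
  push Not at h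
  obtain ⟨a, ha, a1, -⟩ := h 0
  obtain ⟨b, hb, b1, b2⟩ := h (a.i + 1)
  obtain ⟨c, hc', c1, c2⟩ := h (b.i + 1)
  exact three hc hC ha hb hc' (by omega) (by omega) (by omega) (by omega)

lemma unb {C : Set P.{u}} (hc : ∀ x ∈ C, ∀ y ∈ C, cmp x y) (hC : SM C) (m M : ℕ) :
    ∃ p ∈ C, p.n = m + 1 ∧ M ≤ p.t := by
  classical
  by_contra h
  push Not at h
  obtain ⟨K, hK⟩ := cols hc hC (m + 2)
  have := key hC {p | (p ∈ C ∧ ¬ (p.n = m ∧ p.t < K + M + 1)) ∨
      (p.n = m + 1 ∧ p.i = K + M ∧ p.t ≤ 2 * (K + M + 1))} ?_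
    (Finset.Ioc (K + M) (2 * (K + M + 1))) (Finset.range (K + M + 1))
    (fun x => ⟨m + 1, K + M, x.1, (Finset.mem_Ioc.1 x.2).1⟩) (fun p => p.t) ?_ ?_ ?_ ?_
  · rw [Nat.card_Ioc, Finset.card_range] at this
    omega
  · have aux : ∀ x ∈ C, ¬ (x.n = m ∧ x.t < K + M + 1) → ∀ y : P.{u},
        y.n = m + 1 ∧ y.i = K + M ∧ y.t ≤ 2 * (K + M + 1) → cmp x y := by
      intro x hx k y hy
      have := h x hx; have := hK x hx
      unfold cmp le
      omega
    rintro x (⟨hx, k⟩ | hx) y (⟨hy, l⟩ | hy)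
    · exact hc x hx y hy
    · exact aux x hx k y hy
    · exact (aux y hy l x hx).symm
    · unfold cmp le
      omega
  · intro x
    have hx := Finset.mem_Ioc.1 x.2
    refine ⟨Or.inr ⟨rfl, rfl, hx.2⟩, fun k => ?_⟩
    have := h _ k rfl
    simp only at this
    omega
  · intro x y h
    exact Subtype.ext (congrArg P.t h)
  · rintro p ⟨hp, hp'⟩
    simp only [Set.mem_setOf_eq, not_or, not_and, not_not, hp, true_imp_iff, not_forall] at hp'
    obtain ⟨⟨-, k⟩, -⟩ := hp'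
    exact Finset.mem_range.2 k
  · rintro p ⟨hp, hp'⟩ q ⟨hq, hq'⟩ e
    simp only [Set.mem_setOf_eq, not_or, not_and, not_not, hp, hq, true_imp_iff, not_forall]
      at hp' hq' e
    obtain ⟨⟨k, -⟩, -⟩ := hp'
    obtain ⟨⟨l, -⟩, -⟩ := hq'
    have := hc p hp q hq
    have := p.h; have := q.h
    unfold cmp le at *
    ext <;> omega

lemma col {C : Set P.{u}} (hc : ∀ x ∈ C, ∀ y ∈ C, cmp x y) (hC : SM C) (m : ℕ) :
    ∃ i, ∀ M, ∃ p ∈ C, p.n = m + 1 ∧ p.i = i ∧ M ≤ p.t := by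
  by_contra h
  push Not at h
  choose B hB using h
  obtain ⟨K, hK⟩ := cols hc hC (m + 1)
  obtain ⟨p, hp, e, l⟩ := unb hc hC m ((Finset.range K).sup B)
  have h1 := hB p.i p hp e rfl
  have h2 : B p.i ≤ (Finset.range K).sup B := Finset.le_sup (Finset.mem_range.2 (hK p hp e))
  omega

theorem noSM (C : Set P.{u}) (h : IsChain (· ≤ ·) C) (hC : SM C) : False := by
  have hc := chain_iff.1 h
  choose I hI using col hc hC
  have step : ∀ m, I (m + 1) < I m := by
    intro m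
    obtain ⟨q, hq, q1, q2, -⟩ := hI m 0
    obtain ⟨p, hp, p1, p2, p3⟩ := hI (m + 1) (2 * q.t + 1)
    have := hc p hp q hq
    unfold cmp le at this
    omega
  have : ∀ m, I m + m ≤ I 0 := by
    intro m
    induction m with
    | zero => simp
    | succ m ih => have := step m; omega
  have := this (I 0 + 1)
  omega

end Pool.Agent.H.MP_1df3f9_co
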